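import Pool.Agent.Helper819.Good

/-!
The value of `σ_d^1` is `2 d - 2`; in particular it is not `d + 1` for `d ≥ 4`.
-/

namespace Pool.Agent.Results.MP_d071c2_nt.SigmaLine

open Pool.Agent.Helper819.Dyn IsDedekindDomain NumberField

/-- Sanity check: the space `M_d^1` has dimension `2 d - 2`. -/
theorem dim_moduli (d : ℕ) (hd : 2 ≤ d) :
    topologicalKrullDim (Moduli (AlgebraicClosure ℚ) 1 d) = ((2 * d - 2 : ℕ) : WithBot ℕ∞) :=
  krullDim_moduli hd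

theorem result :
    (∀ d : ℕ, 2 ≤ d → shafDim 1 d = ((2 * d - 2 : ℕ) : WithBot ℕ∞)) ∧
    (∀ d : ℕ, 4 ≤ d → ((d + 2 : ℕ) : WithBot ℕ∞) ≤ shafDim 1 d) := by
  refine ⟨shafDim_line, ?_⟩
  intro d hd
  rw [shafDim_line d (by omega)]
  have h2 : d + 2 ≤ 2 * d - 2 := by omega
  exact_mod_cast h2

end Pool.Agent.Results.MP_d071c2_nt.SigmaLine
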